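import Pool.Agent.P8H86.MH.GamA

/-!
# Package GAM: the posets of visible faces are acyclic
-/

set_option autoImplicit false

namespace Pool.Agent.P8H86.MH

open Pool.Agent.P8H39.MH

variable {ι : Type}

/-- The faces. -/
def Gm [DecidableEq ι] (L : Set (ι → SignType)) (G : ι → SignType) (P₀ J : Finset ι) : Set (Finset ι) :=
  {Q | P₀ ⊂ Q ∧ Q ⊆ P₀ ∪ J ∧ zro G Q ∈ L}

theorem Chn_sub {S : Set (Finset ι)} {l m : List (Finset ι)} (h : m ∈ Chn S) (hl : l.Sublist m) :
    l ∈ Chn S :=
  ⟨h.1.sublist hl, fun Q hQ => h.2 Q (hl.subset hQ)⟩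

theorem conv_Chn (S : Set (Finset ι)) : Conv (Chn S) := fun _ _ _ _ h3 _ h23 => Chn_sub h3 h23

theorem Chn_nodup {S : Set (Finset ι)} {l : List (Finset ι)} (h : l ∈ Chn S) : l.Nodup :=
  h.1.imp (fun h => ne_of_lt h)

theorem nil_Chn (S : Set (Finset ι)) : [] ∈ Chn S := ⟨List.Pairwise.nil, by simp⟩

theorem cons_Chn {S : Set (Finset ι)} {a : Finset ι} {l : List (Finset ι)} :
    a :: l ∈ Chn S ↔ (∀ Q ∈ l, a ⊂ Q) ∧ a ∈ S ∧ l ∈ Chn S := by
  constructor
  · rintro ⟨h1, h2⟩
    rw [List.pairwise_cons] at h1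
    exact ⟨h1.1, h2 a (by simp), h1.2, fun Q hQ => h2 Q (by simp [hQ])⟩
  · rintro ⟨h1, h2, h3, h4⟩
    refine ⟨List.pairwise_cons.mpr ⟨h1, h3⟩, ?_⟩
    intro Q hQ
    rcases List.mem_cons.mp hQ with rfl | hQ
    · exact h2
    · exact h4 Q hQ

/-- The members of a chain which meet or contain `P`. -/
theorem append_Chn {S : Set (Finset ι)} {l m : List (Finset ι)} :
    l ++ m ∈ Chn S ↔ l ∈ Chn S ∧ m ∈ Chn S ∧ ∀ Q ∈ l, ∀ Q' ∈ m, Q ⊂ Q' := by
  unfold Chn
  simp only [Set.mem_ofPred_eq, List.pairwise_append, List.mem_append]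
  constructor
  · rintro ⟨⟨h1, h2, h3⟩, h4⟩
    exact ⟨⟨h1, fun Q hQ => h4 Q (Or.inl hQ)⟩, ⟨h2, fun Q hQ => h4 Q (Or.inr hQ)⟩, h3⟩
  · rintro ⟨⟨h1, h4⟩, ⟨h2, h5⟩, h3⟩
    refine ⟨⟨h1, h2, h3⟩, ?_⟩
    rintro Q (hQ | hQ)
    · exact h4 Q hQ
    · exact h5 Q hQ

section main

variable [Fintype ι] [DecidableEq ι] {L : Set (ι → SignType)} (hL : COS L) {G : ι → SignType}
  (hG : ∀ i, G i ≠ 0) {M : Type} [AddCommGroup M]

include hL hG

theorem gam_main (n : ℕ) : ∀ P₀ J : Finset ι, J.card = n → zro G P₀ ∈ L → J.Nonempty →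
    Disjoint P₀ J → flp (zro G P₀) J ∈ L → ∀ k : ℕ, Ex M (Chn (Gm L G P₀ J)) k := by
  induction n using Nat.strong_induction_on with
  | _ n ih =>
  intro P₀ J hn hX hJ hdis hE k
  -- the minimal set `P`
  obtain ⟨P, hPJ, hPne, hPL, hmin⟩ := exists_min (L := L) (flp (zro G P₀) J) J hJ (by
    rw [flp_flp (Finset.Subset.refl J), Finset.sdiff_self]
    have : flp (zro G P₀) ∅ = zro G P₀ := by
      funext i
      exact flp_out (by simp)
    rwa [this])
  have hdP : Disjoint P₀ P := hdis.mono_right hPJ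
  have hE0 : zro (flp (zro G P₀) J) P ∈ L := hL.elim _ hE P hPne
    (fun i hi => flp_ne hG (fun h => (Finset.disjoint_left.mp hdP h) hi)) hPL hmin
  -- no proper part of `P` can be flipped
  have key : ∀ P₁ : Finset ι, P₁ ⊆ P → P₁.Nonempty → flp (zro G P₀) P₁ ∈ L → P₁ = P := by
    intro P₁ h1 h2 h3
    by_contra hne
    have h4 := hL.comp _ hE0 _ h3
    rw [cmp_elim hG h1 hPJ] at h4
    refine hmin (P \ P₁) ?_ ?_ h4
    · rw [Finset.sdiff_nonempty]
      intro h5
      exact hne (Finset.Subset.antisymm h1 h5)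
    · refine Finset.ssubset_iff_subset_ne.mpr ⟨Finset.sdiff_subset, ?_⟩
      intro h5
      obtain ⟨i, hi⟩ := h2
      have : i ∈ P \ P₁ := by rw [h5]; exact h1 hi
      exact (Finset.mem_sdiff.mp this).2 hi
  have hY : flp (zro G P₀) (J \ P) ∈ L := by
    rwa [flp_flp hPJ] at hPL
  have hQP : ∀ Q : Finset ι, P₀ ⊆ Q → Q ⊆ P₀ ∪ J → zro G Q ∈ L → flp (zro G P₀) (Q ∩ P) ∈ L := by
    intro Q h1 h2 h3
    have h4 := hL.comp _ h3 _ (hL.neg _ hY)
    rw [cmp_zro_neg hG h1] at h4
    rwa [flp_congr (B := Q ∩ P)] at h4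
    intro i hi
    simp only [Finset.mem_sdiff, Finset.mem_inter, not_and, not_not]
    constructor
    · rintro ⟨h5, h6⟩
      have h7 := h2 h5
      rw [Finset.mem_union] at h7
      exact ⟨h5, h6 (h7.resolve_left hi)⟩
    · rintro ⟨h5, h6⟩
      exact ⟨h5, fun _ => h6⟩
  have hdich : ∀ Q ∈ Gm L G P₀ J, Disjoint Q P ∨ P ⊆ Q := by
    rintro Q ⟨h1, h2, h3⟩
    by_cases h4 : (Q ∩ P).Nonempty
    · right
      have h5 := key (Q ∩ P) Finset.inter_subset_right h4 (hQP Q h1.subset h2 h3)
      exact Finset.inter_eq_right.mp h5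
    · left
      rw [Finset.not_nonempty_iff_eq_empty] at h4
      exact Finset.disjoint_iff_inter_eq_empty.mpr h4
  -- the members of the family for `J \ P`
  have hsmall : Gm L G P₀ (J \ P) = {Q | Q ∈ Gm L G P₀ J ∧ ¬ P ⊆ Q} := by
    ext Q
    constructor
    · rintro ⟨h1, h2, h3⟩
      refine ⟨⟨h1, h2.trans (Finset.union_subset_union_right Finset.sdiff_subset), h3⟩, ?_⟩
      intro h4
      obtain ⟨i, hi⟩ := hPne
      have h5 := h2 (h4 hi)
      rw [Finset.mem_union, Finset.mem_sdiff] at h5
      rcases h5 with h5 | h5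
      · exact Finset.disjoint_left.mp hdP h5 hi
      · exact h5.2 hi
    · rintro ⟨⟨h1, h2, h3⟩, h4⟩
      refine ⟨h1, ?_, h3⟩
      have h5 := (hdich Q ⟨h1, h2, h3⟩).resolve_right h4
      intro i hi
      have h6 := h2 hi
      rw [Finset.mem_union] at h6 ⊢
      rcases h6 with h6 | h6
      · exact Or.inl h6
      · exact Or.inr (Finset.mem_sdiff.mpr ⟨h6, fun h7 => Finset.disjoint_left.mp h5 hi h7⟩)
  have hcard : ∀ J' : Finset ι, J' ⊆ J \ P → J'.card < n := by
    intro J' h1
    have h2 : J' ⊂ J := by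
      refine Finset.ssubset_iff_subset_ne.mpr ⟨h1.trans Finset.sdiff_subset, ?_⟩
      rintro rfl
      obtain ⟨i, hi⟩ := hPne
      exact (Finset.mem_sdiff.mp (h1 (hPJ hi))).2 hi
    rw [← hn]
    exact Finset.card_lt_card h2
  by_cases hFP : flp (zro G P₀) P ∈ L
  swap
  · -- nothing meets `P`
    have h1 : Gm L G P₀ J = Gm L G P₀ (J \ P) := by
      rw [hsmall]
      ext Q
      constructor
      · intro h2
        refine ⟨h2, fun h3 => hFP ?_⟩
        have := hQP Q h2.1.subset h2.2.1 h2.2.2
        rwa [Finset.inter_eq_right.mpr h3] at this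
      · exact fun h => h.1
    have h2 : (J \ P).Nonempty := by
      rw [Finset.sdiff_nonempty]
      intro h3
      apply hFP
      rw [Finset.Subset.antisymm hPJ h3]
      exact hE
    rw [h1]
    exact ih (J \ P).card (hcard _ (Finset.Subset.refl _)) P₀ (J \ P) rfl hX h2
      (hdis.mono_right Finset.sdiff_subset) hY k
  -- the face `P₀ ∪ P`
  have hR : zro G (P₀ ∪ P) ∈ L := by
    rw [← zro_zro]
    refine hL.elim _ hX P hPne
      (fun i hi => zro_ne hG (fun h => (Finset.disjoint_left.mp hdP h) hi)) hFP ?_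
    intro P' h1 h2 h3
    exact h2.ne (key P' h2.subset h1 h3)
  have hRss : P₀ ⊂ P₀ ∪ P := by
    refine Finset.ssubset_iff_subset_ne.mpr ⟨Finset.subset_union_left, ?_⟩
    intro h
    obtain ⟨i, hi⟩ := hPne
    have : i ∈ P₀ := by rw [h]; simp [hi]
    exact Finset.disjoint_left.mp hdP this hi
  have hRG : P₀ ∪ P ∈ Gm L G P₀ J := ⟨hRss, Finset.union_subset_union_right hPJ, hR⟩
  by_cases hJP : J = P
  · -- only one face
    subst hJP
    have h1 : Gm L G P₀ J = {P₀ ∪ J} := by
      ext Q
      constructor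
      · intro h2
        rcases hdich Q h2 with h3 | h3
        · exfalso
          obtain ⟨h4, h5, h6⟩ := h2
          apply h4.2
          intro i hi
          have h7 := h5 hi
          rw [Finset.mem_union] at h7
          rcases h7 with h7 | h7
          · exact h7
          · exact absurd h7 (Finset.disjoint_left.mp h3 hi)
        · exact Finset.Subset.antisymm h2.2.1 (Finset.union_subset h2.1.subset h3)
      · rintro rfl
        exact hRG
    rw [h1]
    have h2 : Chn ({P₀ ∪ J} : Set (Finset ι)) = {[], [P₀ ∪ J]} := by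
      ext l
      constructor
      · intro hl
        rcases l with _ | ⟨a, l⟩
        · exact Or.inl rfl
        · right
          rw [cons_Chn] at hl
          obtain ⟨h3, h4, h5⟩ := hl
          rcases l with _ | ⟨b, l⟩
          · rw [Set.mem_singleton_iff] at h4
            rw [h4]; rfl
          · exfalso
            have h6 := h3 b (by simp)
            have h7 := h5.2 b (by simp)
            rw [Set.mem_singleton_iff] at h4 h7
            rw [h4, h7] at h6
            exact h6.ne rfl
      · rintro (rfl | rfl)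
        · exact nil_Chn _
        · rw [cons_Chn]
          exact ⟨by simp, rfl, nil_Chn _⟩
    rw [h2]
    refine ex_pair (e := 1) (by norm_num) ?_ k
    rw [D_cons_nil, if_pos rfl]
  -- the general case
  have hJ'ne : (J \ P).Nonempty := by
    rw [Finset.sdiff_nonempty]
    intro h3
    exact hJP (Finset.Subset.antisymm h3 hPJ)
  have hRJ : (P₀ ∪ P) ∪ (J \ P) = P₀ ∪ J := by
    rw [Finset.union_assoc, Finset.union_sdiff_of_subset hPJ]
  refine L1 (A := {l | l ∈ Chn (Gm L G P₀ J) ∧ P₀ ∪ P ∉ l})
    (B := {l | l ∈ Chn (Gm L G P₀ J) ∧ P₀ ∪ P ∈ l}) ⟨conv_Chn _, ?_, ?_, ?_⟩ ?_ ?_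
  · ext l
    constructor
    · intro h
      by_cases h2 : P₀ ∪ P ∈ l
      · exact Or.inr ⟨h, h2⟩
      · exact Or.inl ⟨h, h2⟩
    · rintro (h | h)
      · exact h.1
      · exact h.1
  · rintro l ⟨_, h1⟩ ⟨_, h2⟩
    exact h1 h2
  · rintro a ⟨_, h1⟩ b ⟨_, h2⟩
    apply D_sublist
    intro h3
    exact h1 (h3.subset h2)
  · -- the chains without the face `P₀ ∪ P`
    refine cluster_filter ?_ (fun Q => decide (P ⊆ Q)) ?_
    · rintro l₁ l₂ l₃ _ ⟨h3, h4⟩ _ h23
      exact ⟨Chn_sub h3 h23, fun h => h4 (h23.subset h)⟩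
    · intro p
      by_cases hp : p ∈ Chn (Gm L G P₀ J) ∧ (∀ Q ∈ p, P ⊆ Q) ∧ P₀ ∪ P ∉ p
      swap
      · have : {l | l ∈ {l | l ∈ Chn (Gm L G P₀ J) ∧ P₀ ∪ P ∉ l} ∧
            l.filter (fun Q => decide (P ⊆ Q)) = p} = (∅ : Set (List (Finset ι))) := by
          ext l
          constructor
          · rintro ⟨⟨h1, h2⟩, rfl⟩
            exfalso
            apply hp
            refine ⟨Chn_sub h1 List.filter_sublist, ?_, fun h => h2 (List.filter_sublist.subset h)⟩
            intro Q hQ
            rw [List.mem_filter] at hQ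
            simpa using hQ.2
          · rintro ⟨⟩
        rw [this]
        exact ex_empty k
      obtain ⟨hp1, hp2, hp3⟩ := hp
      -- the set of the faces below
      obtain ⟨J'', hJ1, hJ2, hJ3, hJ4⟩ : ∃ J'' : Finset ι, J'' ⊆ J \ P ∧ J''.Nonempty ∧
          flp (zro G P₀) J'' ∈ L ∧ ∀ Q : Finset ι, Q ∈ Gm L G P₀ J'' ↔
            (Q ∈ Gm L G P₀ J ∧ ¬ P ⊆ Q ∧ ∀ Q' ∈ p, Q ⊂ Q') := by
        rcases p with _ | ⟨Qb, r⟩
        · refine ⟨J \ P, Finset.Subset.refl _, hJ'ne, hY, ?_⟩
          intro Q
          rw [hsmall]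
          simp
        · rw [cons_Chn] at hp1
          obtain ⟨hb1, hb2, hb3⟩ := hp1
          have hPQ : P ⊆ Qb := hp2 Qb (by simp)
          have hne : Qb ≠ P₀ ∪ P := by
            rintro rfl
            simp at hp3
          have hsub : (Qb \ P) \ P₀ ⊆ J \ P := by
            intro i hi
            rw [Finset.mem_sdiff, Finset.mem_sdiff] at hi
            have := hb2.2.1 hi.1.1
            rw [Finset.mem_union] at this
            rw [Finset.mem_sdiff]
            exact ⟨this.resolve_left hi.2, hi.1.2⟩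
          refine ⟨(Qb \ P) \ P₀, hsub, ?_, ?_, ?_⟩
          · by_contra h
            rw [Finset.not_nonempty_iff_eq_empty] at h
            apply hne
            apply Finset.Subset.antisymm
            · intro i hi
              by_contra h2
              rw [Finset.mem_union, not_or] at h2
              have : i ∈ (Qb \ P) \ P₀ := by
                rw [Finset.mem_sdiff, Finset.mem_sdiff]
                exact ⟨⟨hi, h2.2⟩, h2.1⟩
              rw [h] at this
              simp at this
            · exact Finset.union_subset hb2.1.subset hPQ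
          · have h1 := hL.comp _ hb2.2.2 _ (hL.neg _ hFP)
            rw [cmp_zro_neg hG hb2.1.subset] at h1
            rwa [flp_congr (B := (Qb \ P) \ P₀)] at h1
            intro i hi
            simp [hi]
          · intro Q
            constructor
            · rintro ⟨h1, h2, h3⟩
              have h4 : Q ⊆ Qb := by
                intro i hi
                have := h2 hi
                rw [Finset.mem_union, Finset.mem_sdiff, Finset.mem_sdiff] at this
                rcases this with h | h
                · exact hb2.1.subset h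
                · exact h.1.1
              have h5 : ¬ P ⊆ Q := by
                intro h6
                obtain ⟨i, hi⟩ := hPne
                have := h2 (h6 hi)
                rw [Finset.mem_union, Finset.mem_sdiff, Finset.mem_sdiff] at this
                rcases this with h | h
                · exact Finset.disjoint_left.mp hdP h hi
                · exact h.1.2 hi
              have h6 : Q ⊂ Qb := Finset.ssubset_iff_subset_ne.mpr ⟨h4, fun h => h5 (h ▸ hPQ)⟩
              refine ⟨⟨h1, h4.trans hb2.2.1, h3⟩, h5, ?_⟩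
              intro Q' hQ'
              rcases List.mem_cons.mp hQ' with rfl | hQ'
              · exact h6
              · exact h6.trans (hb1 Q' hQ')
            · rintro ⟨h1, h2, h3⟩
              refine ⟨h1.1, ?_, h1.2.2⟩
              intro i hi
              rw [Finset.mem_union, Finset.mem_sdiff, Finset.mem_sdiff]
              by_cases h0 : i ∈ P₀
              · exact Or.inl h0
              · right
                refine ⟨⟨(h3 Qb (by simp)).subset hi, fun h => ?_⟩, h0⟩
                exact Finset.disjoint_left.mp ((hdich Q h1).resolve_right h2) hi h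
      have hset : {l | l ∈ {l | l ∈ Chn (Gm L G P₀ J) ∧ P₀ ∪ P ∉ l} ∧
            l.filter (fun Q => decide (P ⊆ Q)) = p} =
          (fun l : List (Finset ι) => l.map id ++ p) '' Chn (Gm L G P₀ J'') := by
        ext l
        constructor
        · rintro ⟨⟨h1, h2⟩, h3⟩
          have h4 := chain_split P l h1.1
          rw [h3] at h4
          refine ⟨l.filter (fun Q => decide (¬ P ⊆ Q)), ?_, by simp only [List.map_id]; exact h4.symm⟩
          rw [h4, append_Chn] at h1
          obtain ⟨h5, h6, h7⟩ := h1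
          refine ⟨h5.1, fun Q hQ => ?_⟩
          rw [hJ4]
          refine ⟨h5.2 Q hQ, ?_, h7 Q hQ⟩
          rw [List.mem_filter] at hQ
          simpa using hQ.2
        · rintro ⟨l', hl', rfl⟩
          simp only [List.map_id]
          have h5 : ∀ Q ∈ l', ¬ P ⊆ Q := fun Q hQ => ((hJ4 Q).mp (hl'.2 Q hQ)).2.1
          refine ⟨⟨?_, ?_⟩, ?_⟩
          · rw [append_Chn]
            refine ⟨⟨hl'.1, fun Q hQ => ((hJ4 Q).mp (hl'.2 Q hQ)).1⟩, hp1, ?_⟩
            intro Q hQ
            exact ((hJ4 Q).mp (hl'.2 Q hQ)).2.2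
          · rw [List.mem_append, not_or]
            exact ⟨fun h => h5 _ h Finset.subset_union_right, hp3⟩
          · rw [List.filter_append, List.filter_eq_nil_iff.mpr (fun Q hQ => by simpa using h5 Q hQ),
              List.nil_append, List.filter_eq_self.mpr (fun Q hQ => by simpa using hp2 Q hQ)]
      rw [hset]
      apply ex_suffix id Function.injective_id p
      · intro l' hl'
        have : l'.map id ++ p ∈ {l | l ∈ {l | l ∈ Chn (Gm L G P₀ J) ∧ P₀ ∪ P ∉ l} ∧
            l.filter (fun Q => decide (P ⊆ Q)) = p} := by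
          rw [hset]
          exact ⟨l', hl', rfl⟩
        exact Chn_nodup this.1.1
      · exact ih J''.card (hcard _ hJ1) P₀ J'' rfl hX hJ2
          (hdis.mono_right (hJ1.trans Finset.sdiff_subset)) hJ3
  · -- the chains with the face `P₀ ∪ P`
    have hset : {l | l ∈ Chn (Gm L G P₀ J) ∧ P₀ ∪ P ∈ l} =
        (fun l => (P₀ ∪ P) :: l) '' Chn (Gm L G (P₀ ∪ P) (J \ P)) := by
      ext l
      constructor
      · rintro ⟨h1, h2⟩
        rcases l with _ | ⟨a, t⟩
        · simp at h2
        · rw [cons_Chn] at h1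
          obtain ⟨h3, h4, h5⟩ := h1
          have ha : a = P₀ ∪ P := by
            rcases List.mem_cons.mp h2 with h6 | h6
            · exact h6.symm
            · exfalso
              have h7 := h3 _ h6
              rcases hdich a h4 with h8 | h8
              · apply h4.1.2
                intro i hi
                have := h7.subset hi
                rw [Finset.mem_union] at this
                exact this.resolve_right (Finset.disjoint_left.mp h8 hi)
              · exact h7.2 (Finset.union_subset h4.1.subset h8)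
          subst ha
          refine ⟨t, ⟨h5.1, fun Q hQ => ⟨h3 Q hQ, ?_, (h5.2 Q hQ).2.2⟩⟩, rfl⟩
          rw [hRJ]
          exact (h5.2 Q hQ).2.1
      · rintro ⟨t, ht, rfl⟩
        refine ⟨?_, by simp⟩
        rw [cons_Chn]
        refine ⟨fun Q hQ => (ht.2 Q hQ).1, hRG, ht.1, fun Q hQ => ?_⟩
        obtain ⟨h1, h2, h3⟩ := ht.2 Q hQ
        rw [hRJ] at h2
        exact ⟨hRss.trans h1, h2, h3⟩
    rw [hset]
    rcases k with _ | k
    · exact ex_prefix_zero _ _
    · apply ex_prefix
      · intro l hl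
        rw [List.nodup_cons]
        exact ⟨fun h => (hl.2 _ h).1.ne rfl, Chn_nodup hl⟩
      · refine ih (J \ P).card (hcard _ (Finset.Subset.refl _)) (P₀ ∪ P) (J \ P) rfl hR hJ'ne ?_ ?_ k
        · rw [Finset.disjoint_union_left]
          exact ⟨hdis.mono_right Finset.sdiff_subset, Finset.disjoint_sdiff⟩
        · rw [← zro_flp]
          exact hE0

end main

theorem gam : S_GAM := by
  intro ι _ _ L hL G _ hG P₀ J hX hJ hdis hE M _ k
  exact gam_main hL hG J.card P₀ J rfl hX hJ hdis hE k

end Pool.Agent.P8H86.MH
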