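import Pool.Agent.P8H39.MH.Stm

/-!
# Package GAM: auxiliary lemmas on families of lists and on sign vectors
-/

set_option autoImplicit false

namespace Pool.Agent.P8H86.MH

open Pool.Agent.P8H39.MH

section lists

variable {M : Type} [AddCommGroup M]

theorem cluster_filter {α : Type} {S : Set (List α)} (hS : Conv S) (keep : α → Bool) {k : ℕ}
    (h : ∀ p, Ex M {l | l ∈ S ∧ l.filter keep = p} k) : Ex M S k := by
  refine cluster hS (fun l => l.filter keep) List.length ?_ h ?_
  · intro l _ m _ hD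
    have h1 := (D_ne_zero hD).1.filter keep
    rcases Nat.lt_or_ge (m.filter keep).length (l.filter keep).length with h2 | h2
    · exact Or.inr h2
    · exact Or.inl (h1.eq_of_length_le h2)
  · intro l₁ _ l₂ _ h12
    exact (h12.filter keep).length_le

theorem ex_prefix {α : Type} (a : α) (S : Set (List α)) (hS : ∀ l ∈ S, (a :: l).Nodup) (k : ℕ)
    (h : Ex M S k) : Ex M ((fun l => a :: l) '' S) (k + 1) := by
  refine (transport (fun l => a :: l) (e := -1) ?_ (by norm_num) (s := 1) ?_ ?_).mpr h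
  · intro x _ y _ hxy
    exact (List.cons.inj hxy).2
  · intro l _
    rfl
  · intro l hl m _
    have := D_append_left [a] l m (hS l hl)
    simpa using this

theorem ex_prefix_zero {α : Type} (a : α) (S : Set (List α)) :
    Ex M ((fun l => a :: l) '' S) 0 := by
  apply ex_of_no
  rintro _ ⟨l, _, rfl⟩
  simp

theorem ex_suffix {α γ : Type} (e : α → γ) (he : Function.Injective e) (p : List γ)
    (S : Set (List α)) (hS : ∀ l ∈ S, (l.map e ++ p).Nodup) (h : ∀ k, Ex M S k) (k : ℕ) :
    Ex M ((fun l => l.map e ++ p) '' S) k := by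
  rcases Nat.lt_or_ge k p.length with hk | hk
  · apply ex_of_no
    rintro _ ⟨l, _, rfl⟩
    simp only [List.length_append, List.length_map]
    omega
  · obtain ⟨j, rfl⟩ : ∃ j, k = j + p.length := ⟨k - p.length, by omega⟩
    refine (transport (fun l => l.map e ++ p) (e := 1) ?_ (by norm_num) ?_ ?_).mpr (h j)
    · intro x _ y _ hxy
      exact List.map_injective_iff.mpr he (List.append_cancel_right hxy)
    · intro l _
      simp
    · intro l hl m _
      rw [D_append_right _ _ _ (hS l hl), D_map e l m (fun x _ y _ hxy => he hxy), one_mul]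

/-- The decomposition of a chain. -/
theorem chain_split {ι : Type} [DecidableEq ι] (P : Finset ι) (l : List (Finset ι))
    (hl : l.Pairwise (· ⊂ ·)) :
    l = l.filter (fun Q => decide (¬ P ⊆ Q)) ++ l.filter (fun Q => decide (P ⊆ Q)) := by
  induction l with
  | nil => rfl
  | cons a l ih =>
    rw [List.pairwise_cons] at hl
    by_cases ha : P ⊆ a
    · have h1 : ∀ Q ∈ a :: l, P ⊆ Q := by
        intro Q hQ
        rcases List.mem_cons.mp hQ with rfl | hQ
        · exact ha
        · exact ha.trans (hl.1 Q hQ).subset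
      rw [List.filter_eq_nil_iff.mpr (fun Q hQ => by simpa using h1 Q hQ),
        List.filter_eq_self.mpr (fun Q hQ => by simpa using h1 Q hQ), List.nil_append]
    · rw [List.filter_cons_of_pos (by simpa using ha), List.filter_cons_of_neg (by simpa using ha),
        List.cons_append, ← ih hl.2]

end lists

section signs

variable {ι : Type} [DecidableEq ι]

theorem flp_in {X : ι → SignType} {A : Finset ι} {i : ι} (h : i ∈ A) : flp X A i = -X i := if_pos h

theorem flp_out {X : ι → SignType} {A : Finset ι} {i : ι} (h : i ∉ A) : flp X A i = X i := if_neg h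

theorem zro_in {X : ι → SignType} {A : Finset ι} {i : ι} (h : i ∈ A) : zro X A i = 0 := if_pos h

theorem zro_out {X : ι → SignType} {A : Finset ι} {i : ι} (h : i ∉ A) : zro X A i = X i := if_neg h

theorem cmp_z {X Y : ι → SignType} {i : ι} (h : X i = 0) :
    Pool.Agent.P8H39.MH.cmp X Y i = Y i := if_pos h

theorem cmp_n {X Y : ι → SignType} {i : ι} (h : X i ≠ 0) :
    Pool.Agent.P8H39.MH.cmp X Y i = X i := if_neg h

theorem neg_z : (-0 : SignType) = 0 := rfl

theorem flp_congr {G : ι → SignType} {P₀ A B : Finset ι} (h : ∀ i, i ∉ P₀ → (i ∈ A ↔ i ∈ B)) :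
    flp (zro G P₀) A = flp (zro G P₀) B := by
  funext i
  by_cases h0 : i ∈ P₀
  · have e : ∀ A, flp (zro G P₀) A i = 0 := by
      intro A
      by_cases hA : i ∈ A
      · rw [flp_in hA, zro_in h0, neg_z]
      · rw [flp_out hA, zro_in h0]
    rw [e, e]
  · have h1 := h i h0
    by_cases hA : i ∈ A
    · rw [flp_in hA, flp_in (h1.mp hA)]
    · rw [flp_out hA, flp_out (fun h => hA (h1.mpr h))]

theorem cmp_zro_neg {G : ι → SignType} (hG : ∀ i, G i ≠ 0) {P₀ Q : Finset ι} (hQ : P₀ ⊆ Q)
    (B : Finset ι) :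
    Pool.Agent.P8H39.MH.cmp (zro G Q) (-(flp (zro G P₀) B)) = flp (zro G P₀) (Q \ B) := by
  funext i
  by_cases h : i ∈ Q
  · rw [cmp_z (zro_in h), Pi.neg_apply]
    by_cases hB : i ∈ B
    · rw [flp_in hB, flp_out (by simp [hB]), neg_neg]
    · rw [flp_out hB, flp_in (by simp [hB, h])]
  · have h2 : i ∉ P₀ := fun h' => h (hQ h')
    rw [cmp_n (by rw [zro_out h]; exact hG i), flp_out (by simp [h]), zro_out h, zro_out h2]

theorem cmp_zro {G : ι → SignType} (hG : ∀ i, G i ≠ 0) {P₀ Q : Finset ι} (hQ : P₀ ⊆ Q)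
    (B : Finset ι) :
    Pool.Agent.P8H39.MH.cmp (zro G Q) (flp (zro G P₀) B) = flp (zro G P₀) (Q ∩ B) := by
  funext i
  by_cases h : i ∈ Q
  · rw [cmp_z (zro_in h)]
    by_cases hB : i ∈ B
    · rw [flp_in hB, flp_in (by simp [hB, h])]
    · rw [flp_out hB, flp_out (by simp [hB])]
  · have h2 : i ∉ P₀ := fun h' => h (hQ h')
    rw [cmp_n (by rw [zro_out h]; exact hG i), flp_out (by simp [h]), zro_out h, zro_out h2]

theorem flp_flp {X : ι → SignType} {A B : Finset ι} (h : B ⊆ A) :
    flp (flp X A) B = flp X (A \ B) := by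
  funext i
  by_cases hB : i ∈ B
  · rw [flp_in hB, flp_in (h hB), flp_out (by simp [hB]), neg_neg]
  · rw [flp_out hB]
    by_cases hA : i ∈ A
    · rw [flp_in hA, flp_in (by simp [hA, hB])]
    · rw [flp_out hA, flp_out (by simp [hA])]

theorem zro_flp {G : ι → SignType} {P₀ P J : Finset ι} :
    zro (flp (zro G P₀) J) P = flp (zro G (P₀ ∪ P)) (J \ P) := by
  funext i
  by_cases hP : i ∈ P
  · rw [zro_in hP, flp_out (by simp [hP]), zro_in (by simp [hP])]
  · rw [zro_out hP]
    by_cases h0 : i ∈ P₀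
    · by_cases hJ : i ∈ J
      · rw [flp_in hJ, zro_in h0, flp_in (by simp [hJ, hP]), zro_in (by simp [h0])]
      · rw [flp_out hJ, zro_in h0, flp_out (by simp [hJ]), zro_in (by simp [h0])]
    · by_cases hJ : i ∈ J
      · rw [flp_in hJ, zro_out h0, flp_in (by simp [hJ, hP]), zro_out (by simp [h0, hP])]
      · rw [flp_out hJ, zro_out h0, flp_out (by simp [hJ]), zro_out (by simp [h0, hP])]

theorem zro_zro {G : ι → SignType} {P₀ P : Finset ι} :
    zro (zro G P₀) P = zro G (P₀ ∪ P) := by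
  funext i
  by_cases hP : i ∈ P
  · rw [zro_in hP, zro_in (by simp [hP])]
  · by_cases h0 : i ∈ P₀
    · rw [zro_out hP, zro_in h0, zro_in (by simp [h0])]
    · rw [zro_out hP, zro_out h0, zro_out (by simp [h0, hP])]

theorem zro_ne {G : ι → SignType} (hG : ∀ i, G i ≠ 0) {P₀ : Finset ι} {i : ι} (h : i ∉ P₀) :
    zro G P₀ i ≠ 0 := by
  rw [zro_out h]
  exact hG i

theorem flp_ne {G : ι → SignType} (hG : ∀ i, G i ≠ 0) {P₀ J : Finset ι} {i : ι} (h : i ∉ P₀) :
    flp (zro G P₀) J i ≠ 0 := by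
  have h1 := zro_ne hG h
  by_cases hJ : i ∈ J
  · rw [flp_in hJ]
    intro h2
    apply h1
    rw [← neg_neg (zro G P₀ i), h2]
    rfl
  · rw [flp_out hJ]
    exact h1

/-- The elimination step. -/
theorem cmp_elim {G : ι → SignType} (hG : ∀ i, G i ≠ 0) {P₀ P P₁ J : Finset ι}
    (h1 : P₁ ⊆ P) (h2 : P ⊆ J) :
    Pool.Agent.P8H39.MH.cmp (zro (flp (zro G P₀) J) P) (flp (zro G P₀) P₁) =
      flp (flp (zro G P₀) J) (P \ P₁) := by
  funext i
  by_cases hi : i ∈ P
  · rw [cmp_z (zro_in hi)]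
    by_cases hi1 : i ∈ P₁
    · rw [flp_in hi1, flp_out (by simp [hi1]), flp_in (h2 hi)]
    · rw [flp_out hi1, flp_in (by simp [hi1, hi]), flp_in (h2 hi), neg_neg]
  · have e2 : flp (flp (zro G P₀) J) (P \ P₁) i = flp (zro G P₀) J i := flp_out (by simp [hi])
    rw [e2]
    by_cases h0 : flp (zro G P₀) J i = 0
    · have hi0 : i ∈ P₀ := by
        by_contra h
        exact flp_ne hG h h0
      rw [cmp_z (by rw [zro_out hi, h0]), h0, flp_out (fun h => hi (h1 h)), zro_in hi0]
    · rw [cmp_n (by rw [zro_out hi]; exact h0), zro_out hi]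

/-- A minimal flip. -/
theorem exists_min {L : Set (ι → SignType)} (X : ι → SignType) (J : Finset ι) (hJ : J.Nonempty)
    (h : flp X J ∈ L) : ∃ P ⊆ J, P.Nonempty ∧ flp X P ∈ L ∧
      ∀ P' : Finset ι, P'.Nonempty → P' ⊂ P → flp X P' ∉ L := by
  classical
  obtain ⟨P, hP, hmin⟩ := Finset.exists_min_image
    (J.powerset.filter (fun P => P.Nonempty ∧ flp X P ∈ L)) Finset.card ⟨J, by simp [hJ, h]⟩
  simp only [Finset.mem_filter, Finset.mem_powerset] at hP hmin
  refine ⟨P, hP.1, hP.2.1, hP.2.2, fun P' h1 h2 h3 => ?_⟩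
  have := hmin P' ⟨h2.subset.trans hP.1, h1, h3⟩
  have := Finset.card_lt_card h2
  omega

end signs

end Pool.Agent.P8H86.MH
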