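import Pool.Agent.P8H86.MH.Gam

/-!
# Package GAM: open intervals of faces
-/

set_option autoImplicit false

namespace Pool.Agent.P8H86.MH

open Pool.Agent.P8H39.MH

section fam

variable {ι β : Type}

/-- The list with the parts `φ`, `Z`, `τ`. -/
def ll (Z : Finset ι) (φ : List (Finset ι)) (τ : List β) : List (Finset ι ⊕ β) :=
  φ.map Sum.inl ++ Sum.inl Z :: τ.map Sum.inr

theorem ll_left (Z : Finset ι) (φ : List (Finset ι)) (τ : List β) :
    (ll Z φ τ).filterMap Sum.getLeft? = φ ++ [Z] := by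
  unfold ll
  rw [List.filterMap_append, List.filterMap_map, List.filterMap_cons, List.filterMap_map]
  have h1 : ((Sum.getLeft? : Finset ι ⊕ β → Option (Finset ι)) ∘ Sum.inl) = some := rfl
  have h2 : ((Sum.getLeft? : Finset ι ⊕ β → Option (Finset ι)) ∘ Sum.inr) = fun _ => none := rfl
  rw [h1, h2]
  simp

theorem ll_right (Z : Finset ι) (φ : List (Finset ι)) (τ : List β) :
    (ll Z φ τ).filterMap Sum.getRight? = τ := by
  unfold ll
  rw [List.filterMap_append, List.filterMap_map, List.filterMap_cons, List.filterMap_map]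
  have h1 : ((Sum.getRight? : Finset ι ⊕ β → Option β) ∘ Sum.inl) = fun _ => none := rfl
  have h2 : ((Sum.getRight? : Finset ι ⊕ β → Option β) ∘ Sum.inr) = some := rfl
  rw [h1, h2]
  simp

theorem ll_inj {Z : Finset ι} {φ φ' : List (Finset ι)} {τ τ' : List β}
    (h : ll Z φ τ = ll Z φ' τ') : φ = φ' ∧ τ = τ' := by
  constructor
  · have h1 := congrArg (List.filterMap Sum.getLeft?) h
    rw [ll_left, ll_left] at h1
    exact List.append_cancel_right h1
  · have h1 := congrArg (List.filterMap Sum.getRight?) h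
    rwa [ll_right, ll_right] at h1

theorem mem_ll {Z Q : Finset ι} {φ : List (Finset ι)} {τ : List β} :
    Sum.inl Q ∈ ll Z φ τ ↔ Q ∈ φ ∨ Q = Z := by
  unfold ll
  rw [List.mem_append, List.mem_map, List.mem_cons, List.mem_map]
  constructor
  · rintro (⟨a, h, h'⟩ | h | ⟨a, _, h⟩)
    · exact Or.inl (Sum.inl_injective h' ▸ h)
    · exact Or.inr (Sum.inl_injective h)
    · exact absurd h Sum.inr_ne_inl
  · rintro (h | rfl)
    · exact Or.inl ⟨Q, h, rfl⟩
    · exact Or.inr (Or.inl rfl)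

theorem ll_nodup {Z : Finset ι} {φ : List (Finset ι)} {τ : List β} (h1 : φ.Nodup)
    (h2 : Z ∉ φ) (h3 : τ.Nodup) : (ll Z φ τ).Nodup := by
  unfold ll
  rw [List.nodup_append, List.nodup_cons]
  refine ⟨h1.map Sum.inl_injective, ⟨?_, h3.map Sum.inr_injective⟩, ?_⟩
  · rw [List.mem_map]
    rintro ⟨a, _, h⟩
    exact Sum.inr_ne_inl h
  · intro x hx y hy hxy
    subst hxy
    rw [List.mem_map] at hx
    obtain ⟨a, ha, rfl⟩ := hx
    rw [List.mem_cons, List.mem_map] at hy
    rcases hy with h | ⟨b, _, h⟩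
    · exact h2 (Sum.inl_injective h ▸ ha)
    · exact Sum.inr_ne_inl h

/-- The faces strictly between. -/
def Bt [DecidableEq ι] (L : Set (ι → SignType)) (G : ι → SignType) (P₀ Z : Finset ι) :
    Set (Finset ι) := {Q | P₀ ⊂ Q ∧ Q ⊂ Z ∧ zro G Q ∈ L}

/-- The family. -/
def Fam [DecidableEq ι] (L : Set (ι → SignType)) (G : ι → SignType) (P₀ Z : Finset ι)
    (T : Set (List β)) : Set (List (Finset ι ⊕ β)) :=
  {l | ∃ φ ∈ Chn (Bt L G P₀ Z), ∃ τ ∈ T, l = ll Z φ τ}

variable [DecidableEq ι] {L : Set (ι → SignType)} {G : ι → SignType} {P₀ Z : Finset ι}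
  {T : Set (List β)}

theorem Bt_not {φ : List (Finset ι)} (h : φ ∈ Chn (Bt L G P₀ Z)) : Z ∉ φ :=
  fun hZ => (h.2 Z hZ).2.1.ne rfl

theorem conv_Fam (hT : Conv T) : Conv (Fam L G P₀ Z T) := by
  rintro l₁ l₂ l₃ ⟨φ₁, hφ₁, τ₁, hτ₁, rfl⟩ ⟨φ₃, hφ₃, τ₃, hτ₃, rfl⟩ h12 h23
  have h23' := h23
  unfold ll at h23'
  rw [List.sublist_append_iff] at h23'
  obtain ⟨a, b, rfl, ha, hb⟩ := h23'
  rw [List.sublist_map_iff] at ha
  obtain ⟨φ₂, hφ₂, rfl⟩ := ha
  have hφ₂' := Chn_sub hφ₃ hφ₂
  rw [List.sublist_cons_iff] at hb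
  rcases hb with hb | ⟨r, rfl, hr⟩
  · exfalso
    have h1 : (Sum.inl Z : Finset ι ⊕ β) ∈ φ₂.map Sum.inl ++ b :=
      h12.subset (mem_ll.mpr (Or.inr rfl))
    rw [List.mem_append, List.mem_map] at h1
    rcases h1 with ⟨c, hc, h⟩ | h
    · exact Bt_not hφ₂' (Sum.inl_injective h ▸ hc)
    · have := hb.subset h
      rw [List.mem_map] at this
      obtain ⟨c, _, h⟩ := this
      exact Sum.inr_ne_inl h
  · rw [List.sublist_map_iff] at hr
    obtain ⟨τ₂, hτ₂, rfl⟩ := hr
    have e : φ₂.map Sum.inl ++ Sum.inl Z :: τ₂.map Sum.inr = ll Z φ₂ τ₂ := rfl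
    rw [e] at h12 h23 ⊢
    refine ⟨φ₂, hφ₂', τ₂, ?_, rfl⟩
    apply hT τ₁ τ₂ τ₃ hτ₁ hτ₃ _ hτ₂
    have := h12.filterMap Sum.getRight?
    rwa [ll_right, ll_right] at this

theorem Fam_nodup (hT : ∀ τ ∈ T, τ.Nodup) {l : List (Finset ι ⊕ β)} (h : l ∈ Fam L G P₀ Z T) :
    l.Nodup := by
  obtain ⟨φ, hφ, τ, hτ, rfl⟩ := h
  exact ll_nodup (Chn_nodup hφ) (Bt_not hφ) (hT τ hτ)

end fam

section main

variable {ι : Type} [Fintype ι] [DecidableEq ι] {L : Set (ι → SignType)} (hL : COS L)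
  {G : ι → SignType} (hG : ∀ i, G i ≠ 0)

include hL hG

theorem int_main (n : ℕ) : ∀ P₀ Z : Finset ι, (Z \ P₀).card = n → zro G P₀ ∈ L → zro G Z ∈ L →
    P₀ ⊂ Z → ∃ N : ℕ, ∀ (β : Type) (T : Set (List β)), Conv T → (∀ τ ∈ T, τ.Nodup) →
    ∀ (M : Type) [AddCommGroup M] (κ : ℕ), (∀ k, k ≠ κ → Ex M T k) →
    ∀ k, k ≠ κ + N → Ex M (Fam L G P₀ Z T) k := by
  induction n using Nat.strong_induction_on with
  | _ n ih =>
  intro P₀ Z hn hX hZ hPZ
  have hJ : (Z \ P₀).Nonempty := by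
    rw [Finset.sdiff_nonempty]
    exact hPZ.2
  obtain ⟨P, hPJ, hPne, hPL, hmin⟩ := exists_min (L := L) (zro G P₀) (Z \ P₀) hJ (by
    have h1 := hL.comp _ hZ _ (hL.neg _ hX)
    have h2 : flp (zro G P₀) ∅ = zro G P₀ := by
      funext i
      exact flp_out (by simp)
    rw [← h2, cmp_zro_neg hG hPZ.subset] at h1
    rwa [flp_congr (B := Z \ P₀)] at h1
    intro i hi
    simp [hi])
  have hdP : Disjoint P₀ P := Finset.disjoint_of_subset_right hPJ Finset.disjoint_sdiff
  have hPZ' : P ⊆ Z := hPJ.trans Finset.sdiff_subset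
  have hdich : ∀ Q : Finset ι, P₀ ⊆ Q → zro G Q ∈ L → Disjoint Q P ∨ P ⊆ Q := by
    intro Q h1 h3
    by_cases h4 : (Q ∩ P).Nonempty
    · right
      by_contra h5
      have h6 := hL.comp _ h3 _ hPL
      rw [cmp_zro hG h1] at h6
      refine hmin (Q ∩ P) h4 ?_ h6
      exact Finset.ssubset_iff_subset_ne.mpr ⟨Finset.inter_subset_right, fun h =>
        h5 (Finset.inter_eq_right.mp h)⟩
    · left
      rw [Finset.not_nonempty_iff_eq_empty] at h4
      exact Finset.disjoint_iff_inter_eq_empty.mpr h4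
  have hR : zro G (P₀ ∪ P) ∈ L := by
    rw [← zro_zro]
    exact hL.elim _ hX P hPne
      (fun i hi => zro_ne hG (fun h => (Finset.disjoint_left.mp hdP h) hi)) hPL hmin
  have hRss : P₀ ⊂ P₀ ∪ P := by
    refine Finset.ssubset_iff_subset_ne.mpr ⟨Finset.subset_union_left, ?_⟩
    intro h
    obtain ⟨i, hi⟩ := hPne
    have : i ∈ P₀ := by rw [h]; simp [hi]
    exact Finset.disjoint_left.mp hdP this hi
  have hRZ : P₀ ∪ P ⊆ Z := Finset.union_subset hPZ.subset hPZ'
  -- a face below `P₀ ∪ P`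
  have hlow : ∀ a : Finset ι, P₀ ⊂ a → zro G a ∈ L → ¬ a ⊂ P₀ ∪ P := by
    intro a h1 h2 h3
    rcases hdich a h1.subset h2 with h4 | h4
    · apply h1.2
      intro i hi
      have := h3.subset hi
      rw [Finset.mem_union] at this
      exact this.resolve_right (Finset.disjoint_left.mp h4 hi)
    · exact h3.2 (Finset.union_subset h1.subset h4)
  by_cases hRe : P₀ ∪ P = Z
  · -- nothing strictly between
    refine ⟨1, ?_⟩
    intro β T _ hTn M _ κ hT k hk
    have hset : Fam L G P₀ Z T = (fun τ : List β => ll Z [] τ) '' T := by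
      ext l
      constructor
      · rintro ⟨φ, hφ, τ, hτ, rfl⟩
        rcases φ with _ | ⟨a, φ⟩
        · exact ⟨τ, hτ, rfl⟩
        · exfalso
          obtain ⟨h1, h2, h3⟩ := hφ.2 a (by simp)
          rw [← hRe] at h2
          exact hlow a h1 h3 h2
      · rintro ⟨τ, hτ, rfl⟩
        exact ⟨[], nil_Chn _, τ, hτ, rfl⟩
    rcases k with _ | k
    · apply ex_of_no
      rw [hset]
      rintro _ ⟨τ, _, rfl⟩
      simp [ll]
    · rw [hset]
      refine (transport (fun τ : List β => ll Z [] τ) (e := -1) ?_ (by norm_num) (s := 1)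
        ?_ ?_).mpr (hT k (by omega))
      · intro x _ y _ hxy
        exact (ll_inj hxy).2
      · intro l _
        simp [ll]
      · intro l hl m _
        have h1 := D_append_left [(Sum.inl Z : Finset ι ⊕ β)] (l.map Sum.inr) (m.map Sum.inr) (by
          have := ll_nodup (Z := Z) (φ := []) (τ := l) List.nodup_nil (by simp) (hTn l hl)
          simpa [ll] using this)
        rw [D_map Sum.inr l m (fun x _ y _ h => Sum.inr_injective h)] at h1
        simpa [ll] using h1
  -- the general case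
  have hRZs : P₀ ∪ P ⊂ Z := Finset.ssubset_iff_subset_ne.mpr ⟨hRZ, hRe⟩
  have hcard : (Z \ (P₀ ∪ P)).card < n := by
    rw [← hn]
    apply Finset.card_lt_card
    refine Finset.ssubset_iff_subset_ne.mpr ⟨Finset.sdiff_subset_sdiff (Finset.Subset.refl _)
      Finset.subset_union_left, ?_⟩
    intro h
    obtain ⟨i, hi⟩ := hPne
    have h1 := hPJ hi
    rw [← h] at h1
    exact (Finset.mem_sdiff.mp h1).2 (by simp [hi])
  obtain ⟨N, hN⟩ := ih _ hcard (P₀ ∪ P) Z rfl hR hZ hRZs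
  refine ⟨N + 1, ?_⟩
  intro β T hTc hTn M _ κ hT k hk
  refine L1 (A := {l | l ∈ Fam L G P₀ Z T ∧ Sum.inl (P₀ ∪ P) ∉ l})
    (B := {l | l ∈ Fam L G P₀ Z T ∧ Sum.inl (P₀ ∪ P) ∈ l}) ⟨conv_Fam hTc, ?_, ?_, ?_⟩ ?_ ?_
  · ext l
    constructor
    · intro h
      by_cases h2 : Sum.inl (P₀ ∪ P) ∈ l
      · exact Or.inr ⟨h, h2⟩
      · exact Or.inl ⟨h, h2⟩
    · rintro (h | h)
      · exact h.1
      · exact h.1
  · rintro l ⟨_, h1⟩ ⟨_, h2⟩
    exact h1 h2
  · rintro a ⟨_, h1⟩ b ⟨_, h2⟩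
    apply D_sublist
    intro h3
    exact h1 (h3.subset h2)
  · -- the lists without `P₀ ∪ P`
    let keep : Finset ι ⊕ β → Bool := Sum.elim (fun Q => decide (P ⊆ Q)) (fun _ => true)
    have hfil : ∀ (φ : List (Finset ι)) (τ : List β),
        (ll Z φ τ).filter keep = ll Z (φ.filter (fun Q => decide (P ⊆ Q))) τ := by
      intro φ τ
      unfold ll
      rw [List.filter_append, List.filter_cons_of_pos (by simpa [keep] using hPZ'),
        List.filter_map]
      congr 1
      congr 1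
      apply List.filter_eq_self.mpr
      intro x hx
      rw [List.mem_map] at hx
      obtain ⟨y, _, rfl⟩ := hx
      rfl
    refine cluster_filter ?_ keep ?_
    · rintro l₁ l₂ l₃ ⟨h1, _⟩ ⟨h3, h4⟩ h12 h23
      exact ⟨conv_Fam hTc l₁ l₂ l₃ h1 h3 h12 h23, fun h => h4 (h23.subset h)⟩
    · intro p
      by_cases hne : ∃ l, l ∈ {l | l ∈ {l | l ∈ Fam L G P₀ Z T ∧ Sum.inl (P₀ ∪ P) ∉ l} ∧
          l.filter keep = p}
      swap
      · have : {l | l ∈ {l | l ∈ Fam L G P₀ Z T ∧ Sum.inl (P₀ ∪ P) ∉ l} ∧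
            l.filter keep = p} = (∅ : Set (List (Finset ι ⊕ β))) := by
          ext l
          constructor
          · intro h
            exact absurd ⟨l, h⟩ hne
          · rintro ⟨⟩
        rw [this]
        exact ex_empty k
      obtain ⟨_, ⟨⟨φ₀, hφ₀, τ₀, hτ₀, rfl⟩, hnot⟩, hp⟩ := hne
      rw [hfil] at hp
      obtain ⟨ψ, hψ⟩ : ∃ ψ, ψ = φ₀.filter (fun Q => decide (P ⊆ Q)) := ⟨_, rfl⟩
      rw [← hψ] at hp
      have hψ1 : ψ ∈ Chn (Bt L G P₀ Z) := by rw [hψ]; exact Chn_sub hφ₀ List.filter_sublist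
      have hψ2 : ∀ Q ∈ ψ, P ⊆ Q := by
        intro Q hQ
        rw [hψ, List.mem_filter] at hQ
        simpa using hQ.2
      have hψ3 : P₀ ∪ P ∉ ψ := by
        intro h
        apply hnot
        rw [mem_ll]
        left
        rw [hψ] at h
        exact List.filter_sublist.subset h
      -- the head
      obtain ⟨Qb, hb1, hb2, hb3, hb4, hb5, hb6⟩ : ∃ Qb : Finset ι, P₀ ⊂ Qb ∧ Qb ⊆ Z ∧
          zro G Qb ∈ L ∧ P ⊆ Qb ∧ Qb ≠ P₀ ∪ P ∧
          ∀ Q : Finset ι, Q ⊂ Qb ↔ (Q ⊂ Z ∧ ∀ Q' ∈ ψ, Q ⊂ Q') := by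
        rcases ψ with _ | ⟨a, r⟩
        · exact ⟨Z, hPZ, Finset.Subset.refl _, hZ, hPZ', fun h => hRe h.symm, by simp⟩
        · rw [cons_Chn] at hψ1
          obtain ⟨h1, h2, h3⟩ := hψ1
          refine ⟨a, h2.1, h2.2.1.subset, h2.2.2, hψ2 a (by simp), ?_, ?_⟩
          · rintro rfl
            simp at hψ3
          · intro Q
            constructor
            · intro h4
              refine ⟨h4.trans h2.2.1, ?_⟩
              intro Q' hQ'
              rcases List.mem_cons.mp hQ' with rfl | hQ'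
              · exact h4
              · exact h4.trans (h1 Q' hQ')
            · rintro ⟨_, h5⟩
              exact h5 a (by simp)
      have hJ4 : ∀ Q : Finset ι, Q ∈ Gm L G P₀ ((Qb \ P) \ P₀) ↔
          (Q ∈ Bt L G P₀ Z ∧ ¬ P ⊆ Q ∧ ∀ Q' ∈ ψ, Q ⊂ Q') := by
        intro Q
        constructor
        · rintro ⟨h1, h2, h3⟩
          have h4 : Q ⊆ Qb := by
            intro i hi
            have := h2 hi
            rw [Finset.mem_union, Finset.mem_sdiff, Finset.mem_sdiff] at this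
            rcases this with h | h
            · exact hb1.subset h
            · exact h.1.1
          have h5 : ¬ P ⊆ Q := by
            intro h6
            obtain ⟨i, hi⟩ := hPne
            have := h2 (h6 hi)
            rw [Finset.mem_union, Finset.mem_sdiff, Finset.mem_sdiff] at this
            rcases this with h | h
            · exact Finset.disjoint_left.mp hdP h hi
            · exact h.1.2 hi
          have h6 : Q ⊂ Qb := Finset.ssubset_iff_subset_ne.mpr ⟨h4, fun h => h5 (h ▸ hb4)⟩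
          have h7 := (hb6 Q).mp h6
          exact ⟨⟨h1, h7.1, h3⟩, h5, h7.2⟩
        · rintro ⟨⟨h1, h2, h3⟩, h4, h5⟩
          refine ⟨h1, ?_, h3⟩
          have h6 := (hb6 Q).mpr ⟨h2, h5⟩
          intro i hi
          rw [Finset.mem_union, Finset.mem_sdiff, Finset.mem_sdiff]
          by_cases h0 : i ∈ P₀
          · exact Or.inl h0
          · right
            refine ⟨⟨h6.subset hi, fun h => ?_⟩, h0⟩
            exact Finset.disjoint_left.mp ((hdich Q h1.subset h3).resolve_right h4) hi h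
      have happ : ∀ (l' : List (Finset ι)), l'.map Sum.inl ++ p = ll Z (l' ++ ψ) τ₀ := by
        intro l'
        rw [← hp]
        unfold ll
        rw [List.map_append, List.append_assoc]
      have hset : {l | l ∈ {l | l ∈ Fam L G P₀ Z T ∧ Sum.inl (P₀ ∪ P) ∉ l} ∧
            l.filter keep = p} =
          (fun l : List (Finset ι) => l.map Sum.inl ++ p) ''
            Chn (Gm L G P₀ ((Qb \ P) \ P₀)) := by
        ext l
        constructor
        · rintro ⟨⟨⟨φ, hφ, τ, hτ, rfl⟩, h2⟩, h3⟩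
          rw [hfil, ← hp] at h3
          obtain ⟨h3', rfl⟩ := ll_inj h3
          have h4 := chain_split P φ hφ.1
          rw [h3'] at h4
          refine ⟨φ.filter (fun Q => decide (¬ P ⊆ Q)), ?_, ?_⟩
          · rw [h4, append_Chn] at hφ
            obtain ⟨h5, h6, h7⟩ := hφ
            refine ⟨h5.1, fun Q hQ => ?_⟩
            rw [hJ4]
            refine ⟨h5.2 Q hQ, ?_, h7 Q hQ⟩
            rw [List.mem_filter] at hQ
            simpa using hQ.2
          · show (φ.filter (fun Q => decide (¬ P ⊆ Q))).map Sum.inl ++ p = _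
            rw [happ, ← h4]
        · rintro ⟨l', hl', rfl⟩
          have h5 : ∀ Q ∈ l', ¬ P ⊆ Q := fun Q hQ => ((hJ4 Q).mp (hl'.2 Q hQ)).2.1
          show l'.map Sum.inl ++ p ∈ _
          rw [happ]
          refine ⟨⟨⟨l' ++ ψ, ?_, τ₀, hτ₀, rfl⟩, ?_⟩, ?_⟩
          · rw [append_Chn]
            refine ⟨⟨hl'.1, fun Q hQ => ((hJ4 Q).mp (hl'.2 Q hQ)).1⟩, hψ1, ?_⟩
            intro Q hQ
            exact ((hJ4 Q).mp (hl'.2 Q hQ)).2.2
          · rw [mem_ll, List.mem_append, not_or, not_or]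
            exact ⟨⟨fun h => h5 _ h Finset.subset_union_right, hψ3⟩, hRe⟩
          · rw [hfil, List.filter_append,
              List.filter_eq_nil_iff.mpr (fun Q hQ => by simpa using h5 Q hQ),
              List.nil_append, List.filter_eq_self.mpr (fun Q hQ => by simpa using hψ2 Q hQ), hp]
      rw [hset]
      apply ex_suffix Sum.inl Sum.inl_injective p
      · intro l' hl'
        have : l'.map Sum.inl ++ p ∈ {l | l ∈ {l | l ∈ Fam L G P₀ Z T ∧ Sum.inl (P₀ ∪ P) ∉ l} ∧
            l.filter keep = p} := by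
          rw [hset]
          exact ⟨l', hl', rfl⟩
        exact Fam_nodup hTn this.1.1
      · refine gam_main hL hG ((Qb \ P) \ P₀).card P₀ ((Qb \ P) \ P₀) rfl hX ?_
          Finset.disjoint_sdiff ?_
        · by_contra h
          rw [Finset.not_nonempty_iff_eq_empty] at h
          apply hb5
          apply Finset.Subset.antisymm
          · intro i hi
            by_contra h2
            rw [Finset.mem_union, not_or] at h2
            have : i ∈ (Qb \ P) \ P₀ := by
              rw [Finset.mem_sdiff, Finset.mem_sdiff]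
              exact ⟨⟨hi, h2.2⟩, h2.1⟩
            rw [h] at this
            simp at this
          · exact Finset.union_subset hb1.subset hb4
        · have h1 := hL.comp _ hb3 _ (hL.neg _ hPL)
          rw [cmp_zro_neg hG hb1.subset] at h1
          rwa [flp_congr (B := (Qb \ P) \ P₀)] at h1
          intro i hi
          simp [hi]
  · -- the lists with `P₀ ∪ P`
    have hset : {l | l ∈ Fam L G P₀ Z T ∧ Sum.inl (P₀ ∪ P) ∈ l} =
        (fun l => Sum.inl (P₀ ∪ P) :: l) '' Fam L G (P₀ ∪ P) Z T := by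
      ext l
      constructor
      · rintro ⟨⟨φ, hφ, τ, hτ, rfl⟩, h2⟩
        rw [mem_ll] at h2
        have h2 := h2.resolve_right hRe
        rcases φ with _ | ⟨a, t⟩
        · simp at h2
        · rw [cons_Chn] at hφ
          obtain ⟨h3, h4, h5⟩ := hφ
          have ha : a = P₀ ∪ P := by
            rcases List.mem_cons.mp h2 with h6 | h6
            · exact h6.symm
            · exact absurd (h3 _ h6) (hlow a h4.1 h4.2.2)
          subst ha
          refine ⟨ll Z t τ, ⟨t, ⟨h5.1, fun Q hQ => ⟨h3 Q hQ, (h5.2 Q hQ).2.1, (h5.2 Q hQ).2.2⟩⟩,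
            τ, hτ, rfl⟩, rfl⟩
      · rintro ⟨_, ⟨t, ht, τ, hτ, rfl⟩, rfl⟩
        have e : Sum.inl (P₀ ∪ P) :: ll Z t τ = ll Z ((P₀ ∪ P) :: t) τ := rfl
        show Sum.inl (P₀ ∪ P) :: ll Z t τ ∈ _
        rw [e]
        refine ⟨⟨(P₀ ∪ P) :: t, ?_, τ, hτ, rfl⟩, by rw [mem_ll]; simp⟩
        rw [cons_Chn]
        refine ⟨fun Q hQ => (ht.2 Q hQ).1, ⟨hRss, hRZs, hR⟩, ht.1, fun Q hQ => ?_⟩
        obtain ⟨h1, h2, h3⟩ := ht.2 Q hQ
        exact ⟨hRss.trans h1, h2, h3⟩
    rw [hset]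
    rcases k with _ | k
    · exact ex_prefix_zero _ _
    · apply ex_prefix
      · intro l hl
        rw [List.nodup_cons]
        refine ⟨?_, Fam_nodup hTn hl⟩
        obtain ⟨φ, hφ, τ, hτ, rfl⟩ := hl
        rw [mem_ll, not_or]
        exact ⟨fun h => (hφ.2 _ h).1.ne rfl, hRe⟩
      · exact hN β T hTc hTn M κ hT k (by omega)

end main

theorem int : S_INT := by
  intro ι _ _ L hL G _ hG P₀ Z hX hZ hPZ
  exact int_main hL hG (Z \ P₀).card P₀ Z rfl hX hZ hPZ

end Pool.Agent.P8H86.MH
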